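import Pool.Agent.P.MP_8b7eba_nt.R3.Main
import Pool.Agent.P.MP_8b7eba_nt.R3.MM

/-! For almost all squarefree `d` the twist of `X₀(15)` by `d` has rank zero exactly when its
central value does not vanish, and satisfies the formula of Birch and Swinnerton-Dyer at the
central point when the root number is `-1`. -/

namespace Pool.Agent.Results.MP_9c97e9_nt.AllTwists

open Pool.Agent.P.MP_9c97e9_nt Pool.Agent.P.MP_8b7eba_nt Filter Topology Classical
open Pool.Agent.P.MP_8b7eba_nt.R3 (twa)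

/-- The order of the Tate-Shafarevich group if the rank is zero, and zero otherwise. -/
noncomputable def sha0 (W : WeierstrassCurve ℤ) : ℕ :=
  if Module.rank ℤ (Pt W ℚ) = 0 then Nat.card (Sha W) else 0

/-- The assertion of the problem for the curve with global minimal model `W`. -/
def Formula (W : WeierstrassCurve ℤ) : Prop :=
  (Module.rank ℤ (Pt W ℚ) = 0 → Finite (Sha W)) ∧
  ∃ L : ℂ → ℂ, IsL W L ∧
    L 1 = (sha0 W : ℂ) * (period W : ℂ) * ((∏ᶠ p, tamagawa W p : ℕ) : ℂ) /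
      (Nat.card (AddCommGroup.torsion (Pt W ℚ)) : ℂ) ^ 2

/-- The root number of the twist by the squarefree integer `d`. -/
def rootNumber (d : ℤ) : ℤ :=
  d.sign * (if 3 ∣ d then 1 else jacobiSym d 3) * (if 5 ∣ d then -1 else jacobiSym d 5)

/-- The squarefree integers of absolute value at most `X`. -/
def Fam (X : ℕ) : Set ℤ := {d | |d| ≤ X ∧ Squarefree d}

/-- What is proved for the twist by `d`. -/
def Good (d : ℤ) : Prop :=
  (∀ (p : ℕ) [Fact p.Prime], ((twa d).baseChange ℚ_[p]).IsMinimal ℤ_[p]) ∧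
  (rootNumber d = -1 → Module.rank ℤ (Pt (twa d) ℚ) ≠ 0 ∧ Formula (twa d)) ∧
  (rootNumber d ≠ -1 → Module.rank ℤ (Pt (twa d) ℚ) = 0 ∧ ∃ L : ℂ → ℂ, IsL (twa d) L ∧ L 1 ≠ 0)

theorem result :
    Tendsto (fun X : ℕ => ({d ∈ Fam X | Good d}.ncard / (Fam X).ncard : ℝ)) atTop (𝓝 1) := by
  refine R3.final _ fun d h1 h2 h3 => ?_
  obtain ⟨L, f, a1, a2, a3⟩ := R3.twa_L h1
  obtain ⟨b1, b2⟩ := h3.2 f a2
  have b3 := R3.twa_rank h1 h2
  refine ⟨fun p _ => R3.twa_minimal h1 p, fun h => ?_, fun h =>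
    ⟨b3.2 (Set.not_infinite.1 fun e => h (b2.1 (b1.2 e))), L, a1, fun e => h (b2.1 (a3.1 e))⟩⟩
  have h0 : Module.rank ℤ (Pt (twa d) ℚ) ≠ 0 := fun e => b1.1 (b2.2 h) (b3.1 e)
  refine ⟨h0, fun a => absurd a h0, L, a1, ?_⟩
  rw [a3.2 (b2.2 h), sha0, if_neg h0]
  simp

end Pool.Agent.Results.MP_9c97e9_nt.AllTwists
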