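import Pool.Agent.P.MP_8b7eba_nt.QT.Main

/-! For almost all integers `D` the rank of `y² = x³ - D x` plus the corank of the 2-primary part
of its Tate-Shafarevich group is at most one. -/

namespace Pool.Agent.Results.MP_9c97e9_nt.QuarticTwists

open Pool.Agent.P.MP_9c97e9_nt Pool.Agent.P.MP_8b7eba_nt Filter Topology Classical

/-- The rank plus the corank of the 2-primary part of the Tate-Shafarevich group is at most one. -/
def Good (W : WeierstrassCurve ℤ) : Prop :=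
  (Module.rank ℤ (Pt W ℚ) = 0 ∧
    ∃ k : ℕ, ∀ φ : ZMod (2 ^ k) × ZMod (2 ^ k) →+ Sha W, ¬ Function.Injective φ) ∨
  (Module.rank ℤ (Pt W ℚ) = 1 ∧ Finite (AddCommGroup.primaryComponent (Sha W) 2))

theorem result : Tendsto (fun X : ℕ =>
    ({D : ℤ | |D| ≤ X ∧ D ≠ 0 ∧ Good ⟨0, 0, 0, -D, 0⟩}.ncard / (2 * X) : ℝ)) atTop (𝓝 1) :=
  QT.final QT.a_DENSQ _ fun _ h => h

end Pool.Agent.Results.MP_9c97e9_nt.QuarticTwists
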