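import Pool.Agent.P.MP_8b7eba_nt.TC.Main

/-! Rank zero implies `L(E,1) ≠ 0` and the finiteness of the 2-primary part of the
Tate-Shafarevich group for the twists of `X₀(15)` by the squarefree integers outside an explicit
thin set, when that 2-primary part has corank at most one. -/

namespace Pool.Agent.Results.MP_9c97e9_nt.RankZeroConverseAll

open Pool.Agent.P.MP_9c97e9_nt Pool.Agent.P.MP_8b7eba_nt Classical
open Pool.Agent.P.MP_8b7eba_nt.R3 (twa)

/-- The exceptional twists: `d` is `82` or `178` modulo `240` and all its odd prime factors are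
`1` or `7` modulo `8`. -/
def Exc (d : ℤ) : Prop :=
  (d % 240 = 82 ∨ d % 240 = 178) ∧
    ∀ p : ℕ, p.Prime → p ≠ 2 → (p : ℤ) ∣ d → p % 8 = 1 ∨ p % 8 = 7

theorem result (d : ℤ) (hd : Squarefree d) (hE : ¬ Exc d) :
    (∀ (p : ℕ) [Fact p.Prime], ((twa d).baseChange ℚ_[p]).IsMinimal ℤ_[p]) ∧
    (∃ L : ℂ → ℂ, IsL (twa d) L) ∧
    ((∃ k : ℕ, ∀ φ : ZMod (2 ^ k) × ZMod (2 ^ k) →+ Sha (twa d), ¬ Function.Injective φ) →
      Module.rank ℤ (Pt (twa d) ℚ) = 0 →
      Finite (AddCommGroup.primaryComponent (Sha (twa d)) 2) ∧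
        ∀ L : ℂ → ℂ, IsL (twa d) L → L 1 ≠ 0) := by
  obtain ⟨L, -, hL, -⟩ := R3.twa_L hd
  exact ⟨fun p _ => R3.twa_minimal hd p, ⟨L, hL⟩, SM.Tc.rank_zero hd hE⟩

end Pool.Agent.Results.MP_9c97e9_nt.RankZeroConverseAll
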