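import Pool.Agent.P.MP_9c97e9_nt.K2.Main

/-! The 2-part of the Birch and Swinnerton-Dyer formula for all quadratic twists of `X₀(15)`: the
analytic order of the Tate-Shafarevich group is an integer `r`, which is nonzero exactly when the
group of points and the 2-primary part of the Tate-Shafarevich group are finite, and then the order
of the 2-primary part is the 2-part of `r`. -/

namespace Pool.Agent.Results.MP_9c97e9_nt.TwoPartAll

open Pool.Agent.P.MP_9c97e9_nt
open Pool.Agent.P.MP_8b7eba_nt.R3 (twa)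

open Classical in
theorem result (d : ℤ) (hd : Squarefree d) :
    (∀ (p : ℕ) [Fact p.Prime], ((twa d).baseChange ℚ_[p]).IsMinimal ℤ_[p]) ∧
    Finite (AddCommGroup.torsion (Pt (twa d) ℚ)) ∧
    ∃ L : ℂ → ℂ, IsL (twa d) L ∧ ∃ r : ℤ,
      L 1 = (r : ℂ) * (period (twa d) : ℂ) * ((∏ᶠ p, tamagawa (twa d) p : ℕ) : ℂ) /
        (Nat.card (AddCommGroup.torsion (Pt (twa d) ℚ)) : ℂ) ^ 2 ∧
      (L 1 = 0 ↔ r = 0) ∧
      (r ≠ 0 ↔ Finite (Pt (twa d) ℚ) ∧ Finite (AddCommGroup.primaryComponent (Sha (twa d)) 2)) ∧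
      (r ≠ 0 → Nat.card (AddCommGroup.primaryComponent (Sha (twa d)) 2) =
        2 ^ padicValInt 2 r) :=
  K2.z_ALL hd

end Pool.Agent.Results.MP_9c97e9_nt.TwoPartAll
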